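import Pool.Agent.Helper3.AK.Goals4

/-!
# Project AK, packet DP: deterministic implication for one word
-/

namespace Pool.Agent.Helper19.AK

open Equiv Pool.Agent.Helper3.AK

theorem dp (h1 : S_C1) (h2 : S_DET) (h3 : S_BALL) : S_DP := by
  classical
  intro n r m κ' B' η x g c hr hB' hη hη2 hgrow hM hred hmev hex hsh hsh0
  set S : Finset (Fin n) := Finset.univ.map c with hS
  set lam : ℕ := 2 * κ' + 1 with hlam
  set M : ℕ := m / lam with hMdef
  have hlam1 : 1 ≤ lam := by omega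
  have hdet := h2 n r m lam x g c hlam1 hred hmev
  rw [← hS] at hdet
  -- the real form of DET
  have hdetR : (r : ℝ) * ((M : ℝ) - 1) ≤
      ∑ b ∈ Finset.Ico 1 M, (rid x g S (b * lam) : ℝ) +
        ((∑ t ∈ Finset.Ico 1 m, (sh 0 x g S t : ℝ)) + 2 * r) := by
    have h : ((r * (M - 1) : ℕ) : ℝ) ≤
        ((∑ b ∈ Finset.Ico 1 M, rid x g S (b * lam) +
          ∑ t ∈ Finset.Ico 1 m, sh 0 x g S t + 2 * r : ℕ) : ℝ) := by exact_mod_cast hdet
    push_cast [Nat.cast_sub (show 1 ≤ M by omega)] at h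
    linarith
  -- average
  have havg : ∃ b ∈ Finset.Ico 1 M, (1 - 2 * η) * r ≤
      (rid x g S (b * lam) : ℝ) - sh (2 * κ') x g S (b * lam) := by
    by_contra hcon
    push Not at hcon
    have hlt : ∑ b ∈ Finset.Ico 1 M,
        ((rid x g S (b * lam) : ℝ) - sh (2 * κ') x g S (b * lam)) <
        ∑ b ∈ Finset.Ico 1 M, (1 - 2 * η) * (r : ℝ) :=
      Finset.sum_lt_sum_of_nonempty (Finset.nonempty_Ico.2 (by omega)) hcon
    rw [Finset.sum_sub_distrib, Finset.sum_const, Nat.card_Ico, nsmul_eq_mul,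
      Nat.cast_sub (show 1 ≤ M by omega), Nat.cast_one] at hlt
    nlinarith
  obtain ⟨b, hb, hbr⟩ := havg
  rw [Finset.mem_Ico] at hb
  have hbm : b * lam + lam ≤ m := by
    have h1' : (b + 1) * lam ≤ M * lam := Nat.mul_le_mul_right _ (by omega)
    have h2' : M * lam ≤ m := Nat.div_mul_le_self m lam
    nlinarith
  have hs1 : 1 ≤ b * lam := Nat.one_le_iff_ne_zero.2 (Nat.mul_ne_zero (by omega) (by omega))
  have hsκ : b * lam + κ' ≤ m := by omega
  have hsm : b * lam ≤ m := by omega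
  -- riders which are not shallow
  have hcard : (rid x g S (b * lam) : ℕ) ≤ sh (2 * κ') x g S (b * lam) +
      Nat.card {p : Fin n // p ∈ S ∧ ¬ shal (2 * κ') x g S (b * lam) p} := by
    have hnc : Nat.card {p : Fin n // p ∈ S ∧ ¬ shal (2 * κ') x g S (b * lam) p} =
        (S.filter fun p => ¬ shal (2 * κ') x g S (b * lam) p).card := by
      rw [Nat.card_eq_fintype_card, Fintype.card_subtype]
      congr 1
      ext p
      simp
    rw [hnc]
    unfold rid sh
    refine (Finset.card_le_card ?_).trans (Finset.card_union_le _ _)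
    intro p hp
    rw [Finset.mem_filter] at hp
    rw [Finset.mem_union, Finset.mem_filter, Finset.mem_filter]
    by_cases hsp : shal (2 * κ') x g S (b * lam) p
    · exact Or.inl ⟨hp.1, hp.2, hsp⟩
    · exact Or.inr ⟨hp.1, hsp⟩
  have hr1 : ⌈(1 - 2 * η) * (r : ℝ)⌉₊ ≤
      Nat.card {p : Fin n // p ∈ S ∧ ¬ shal (2 * κ') x g S (b * lam) p} := by
    rw [Nat.ceil_le]
    have : (rid x g S (b * lam) : ℝ) ≤ sh (2 * κ') x g S (b * lam) +
      (Nat.card {p : Fin n // p ∈ S ∧ ¬ shal (2 * κ') x g S (b * lam) p} : ℝ) := by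
      exact_mod_cast hcard
    linarith
  have hfull : (full x g S (b * lam)).card ≤ B' * r := by
    obtain ⟨ha, -, -⟩ := h1 n x g S m hred (b * lam) hsm
    obtain ⟨-, -, hc⟩ := h1 n x g S m hred m le_rfl
    have h5 := hc (b * lam) hsm
    have h6 : 2 * ((full x g S (b * lam)).card : ℤ) < 2 * ((B' * r : ℕ) : ℤ) := by
      refine lt_of_le_of_lt (ha.trans h5) ?_
      exact_mod_cast hex
    have h7 : ((full x g S (b * lam)).card : ℤ) < ((B' * r : ℕ) : ℤ) := by linarith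
    exact_mod_cast h7.le
  have hredκ : Red g (b * lam + κ') := fun t ht => hred t (by omega)
  have hF : ((B' * r : ℕ) : ℝ) < (1 + η) ^ κ' * (⌈(1 - 2 * η) * (r : ℝ)⌉₊ : ℝ) := by
    have hr0 : (0 : ℝ) < r := by exact_mod_cast hr
    have hp : (0 : ℝ) < (1 + η) ^ κ' := by positivity
    have h8 : (1 - 2 * η) * (r : ℝ) ≤ (⌈(1 - 2 * η) * (r : ℝ)⌉₊ : ℝ) := Nat.le_ceil _
    have h9 : ((B' * r : ℕ) : ℝ) = (B' : ℝ) * r := by push_cast; ring
    rw [h9]
    calc (B' : ℝ) * r < (1 + η) ^ κ' * (1 - 2 * η) * r := by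
          exact mul_lt_mul_of_pos_right hgrow hr0
      _ = (1 + η) ^ κ' * ((1 - 2 * η) * r) := by ring
      _ ≤ _ := mul_le_mul_of_nonneg_left h8 hp.le
  obtain ⟨H, hH1, hH2, hH3, hH4⟩ := h3 n κ' (b * lam) ⌈(1 - 2 * η) * (r : ℝ)⌉₊ (B' * r) η x g S
    hs1 hredκ hη.le hr1 hfull hF
  refine ⟨b * lam + κ', hsκ, H, hH1, hH2, hH3, hH4.trans (le_of_eq ?_)⟩
  rw [hS, Finset.filter_map, Finset.card_map]
  rfl

end Pool.Agent.Helper19.AK
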