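import Pool.Agent.Helper3.AK.Goals3

/-!
EX: expansion of the power of `Gop` as an average over words.
-/

namespace Pool.Agent.Helper19.AK

open Equiv Pool.Agent.Helper3.AK

variable {n r k K : ℕ}

theorem zpos_congr (x : Fin K → Alt n) (g : ℕ → Letter K) {u u' : ℕ → Perm (Fin n)} :
    ∀ s : ℕ, (∀ t < s, u t = u' t) → zpos x u g s = zpos x u' g s := by
  intro s
  induction s with
  | zero => intro _; rfl
  | succ s ih =>
    intro h
    show lett x (g s) * u s * zpos x u g s = lett x (g s) * u' s * zpos x u' g s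
    rw [ih (fun t ht => h t (by omega)), h s (by omega)]

/-- the alternating product of averages and letters -/
noncomputable def opProd (x : Fin K → Alt n) (g : ℕ → Letter K) (κ : ℕ → Perm (Fin n) → ℝ) :
    ℕ → (Fn n r →ₗ[ℝ] Fn n r)
  | 0 => Avg (κ 0)
  | T + 1 => opProd x g κ T * Act (lett x (g T)) * Avg (κ (T + 1))

theorem opProd_congr (x : Fin K → Alt n) (g : ℕ → Letter K) {κ κ' : ℕ → Perm (Fin n) → ℝ} :
    ∀ T : ℕ, (∀ t ≤ T, κ t = κ' t) →
      (opProd x g κ T : Fn n r →ₗ[ℝ] Fn n r) = opProd x g κ' T := by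
  intro T
  induction T with
  | zero =>
    intro h
    show Avg (κ 0) = Avg (κ' 0)
    rw [h 0 le_rfl]
  | succ T ih =>
    intro h
    show opProd x g κ T * Act (lett x (g T)) * Avg (κ (T + 1)) =
      opProd x g κ' T * Act (lett x (g T)) * Avg (κ' (T + 1))
    rw [ih (fun t ht => h t (by omega)), h (T + 1) le_rfl]

theorem extP_snoc_lt {m : ℕ} (u : Fin m → Perm (Fin n)) (g : Perm (Fin n)) {t : ℕ} (h : t < m) :
    extP (Fin.snoc (α := fun _ => Perm (Fin n)) u g : Fin (m + 1) → Perm (Fin n)) t =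
      extP u t := by
  unfold extP
  rw [dif_pos (by omega : t < m + 1), dif_pos h]
  exact Fin.snoc_castSucc (α := fun _ => Perm (Fin n)) g u ⟨t, h⟩

theorem extP_snoc_last {m : ℕ} (u : Fin m → Perm (Fin n)) (g : Perm (Fin n)) :
    extP (Fin.snoc (α := fun _ => Perm (Fin n)) u g : Fin (m + 1) → Perm (Fin n)) m = g := by
  unfold extP
  rw [dif_pos (by omega : m < m + 1)]
  exact Fin.snoc_last (α := fun _ => Perm (Fin n)) g u

theorem opProd_eq (x : Fin K → Alt n) (g : ℕ → Letter K) (κ : ℕ → Perm (Fin n) → ℝ) (T : ℕ) :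
    (opProd x g κ T : Fn n r →ₗ[ℝ] Fn n r) =
      ∑ u : Fin (T + 1) → Perm (Fin n), (∏ t : Fin (T + 1), κ t (u t)) •
        Act (extP u T * zpos x (extP u) g T) := by
  induction T with
  | zero =>
    show Avg (κ 0) = _
    unfold Avg
    refine Fintype.sum_equiv (Equiv.funUnique (Fin 1) (Perm (Fin n))).symm _ _ fun h => ?_
    simp only [Nat.reduceAdd, Finset.univ_unique, Finset.prod_singleton]
    congr 1
  | succ T ih =>
    show opProd x g κ T * Act (lett x (g T)) * Avg (κ (T + 1)) = _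
    rw [ih]
    unfold Avg
    rw [Finset.sum_mul, Finset.sum_mul]
    rw [← (Fin.snocEquiv (fun _ : Fin (T + 2) => Perm (Fin n))).sum_comp, Fintype.sum_prod_type,
      Finset.sum_comm]
    refine Finset.sum_congr rfl fun u _ => ?_
    rw [Finset.mul_sum]
    refine Finset.sum_congr rfl fun h _ => ?_
    have e1 : (∏ t : Fin (T + 1 + 1), κ t
        ((Fin.snocEquiv (fun _ : Fin (T + 2) => Perm (Fin n))) (h, u) t)) =
        (∏ t : Fin (T + 1), κ t (u t)) * κ (T + 1) h := by
      rw [Fin.prod_univ_castSucc]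
      congr 1
      · refine Finset.prod_congr rfl fun t _ => ?_
        show κ t (Fin.snoc (α := fun _ => Perm (Fin n)) u h t.castSucc) = _
        rw [Fin.snoc_castSucc]
      · show κ (T + 1) (Fin.snoc (α := fun _ => Perm (Fin n)) u h (Fin.last _)) = _
        rw [Fin.snoc_last]
    have e2 : extP ((Fin.snocEquiv (fun _ : Fin (T + 2) => Perm (Fin n))) (h, u)) (T + 1) = h :=
      extP_snoc_last u h
    have e3 : zpos x (extP ((Fin.snocEquiv (fun _ : Fin (T + 2) => Perm (Fin n))) (h, u))) g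
        (T + 1) = zpos x (extP u) g (T + 1) :=
      zpos_congr x g (T + 1) (fun t ht => extP_snoc_lt u h ht)
    rw [e1, e2, e3]
    show ((∏ t : Fin (T + 1), κ t (u t)) • Act (extP u T * zpos x (extP u) g T)) *
      Act (lett x (g T)) * (κ (T + 1) h • Act h) = _ • Act (h * (lett x (g T) * extP u T *
        zpos x (extP u) g T))
    rw [Act_mul h, Act_mul (lett x (g T) * extP u T), Act_mul (lett x (g T)), Act_mul (extP u T)]
    rw [smul_mul_assoc, smul_mul_assoc, mul_smul_comm, smul_smul]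
    congr 1

/-- the operators of the blocks, without the last one -/
noncomputable def wgt' (z : Fin k → Alt n) (m t : ℕ) : Perm (Fin n) → ℝ :=
  lazyLaw z (if t = 0 then m else 2 * m)

theorem opProd_even (hLZ : S_LZ) (z : Fin k → Alt n) (y : Alt n) (hk : 1 ≤ k) (m q : ℕ) :
    (opProd (one1 y) alt1 (wgt' z m) (2 * q) : Fn n r →ₗ[ℝ] Fn n r) =
      Gop z y m ^ q * Lz z ^ m := by
  have hA : ∀ j : ℕ, (Avg (lazyLaw z j) : Fn n r →ₗ[ℝ] Fn n r) = Lz z ^ j := fun j =>
    (hLZ n k r j z hk).1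
  induction q with
  | zero =>
    show Avg (lazyLaw z (if 0 = 0 then m else 2 * m)) = _
    rw [if_pos rfl, hA, pow_zero, one_mul]
  | succ q ih =>
    have e : 2 * (q + 1) = 2 * q + 1 + 1 := by ring
    rw [e]
    show opProd (one1 y) alt1 (wgt' z m) (2 * q) * Act (lett (one1 y) (alt1 (2 * q))) *
      Avg (lazyLaw z (if 2 * q + 1 = 0 then m else 2 * m)) *
      Act (lett (one1 y) (alt1 (2 * q + 1))) *
      Avg (lazyLaw z (if 2 * q + 1 + 1 = 0 then m else 2 * m)) = _
    have h1 : lett (one1 y) (alt1 (2 * q)) = (y : Perm (Fin n)) := by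
      have h : (alt1 (2 * q)).2 = false := by simp [alt1]
      unfold lett
      rw [h]
      rfl
    have h2 : lett (one1 y) (alt1 (2 * q + 1)) = (y : Perm (Fin n))⁻¹ := by
      have h : (alt1 (2 * q + 1)).2 = true := by
        simp only [alt1, decide_eq_true_eq]
        omega
      unfold lett
      rw [h]
      rfl
    rw [if_neg (by omega), if_neg (by omega), hA, h1, h2, ih, pow_succ]
    unfold Gop
    have h3 : (Lz z : Fn n r →ₗ[ℝ] Fn n r) ^ (2 * m) = Lz z ^ m * Lz z ^ m := by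
      rw [two_mul, pow_add]
    generalize (Lz z ^ m * Act (y : Perm (Fin n)) * Lz z ^ (2 * m) * Act ((y : Perm (Fin n))⁻¹) *
      Lz z ^ m : Fn n r →ₗ[ℝ] Fn n r) ^ q = G
    simp only [mul_assoc, h3]

theorem ex (hLZ : S_LZ) : S_EX := by
  intro n k r m q z y hk hq
  have hA : ∀ j : ℕ, (Avg (lazyLaw z j) : Fn n r →ₗ[ℝ] Fn n r) = Lz z ^ j := fun j =>
    (hLZ n k r j z hk).1
  have h := opProd_eq (n := n) (r := r) (one1 y) alt1 (fun t => wgt z m (2 * q) t) (2 * q)
  refine Eq.trans ?_ h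
  obtain ⟨p, rfl⟩ := Nat.exists_eq_add_of_le' hq
  have e : 2 * (p + 1) = 2 * p + 1 + 1 := by ring
  have h0 : (opProd (one1 y) alt1 (fun t => wgt z m (2 * (p + 1)) t) (2 * p) :
      Fn n r →ₗ[ℝ] Fn n r) = Gop z y m ^ p * Lz z ^ m := by
    rw [← opProd_even hLZ z y hk]
    refine opProd_congr _ _ _ fun t ht => ?_
    show lazyLaw z (if t = 0 ∨ t = 2 * (p + 1) then m else 2 * m) =
      lazyLaw z (if t = 0 then m else 2 * m)
    by_cases h : t = 0
    · rw [if_pos (Or.inl h), if_pos h]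
    · rw [if_neg (by omega), if_neg h]
  have h1 : (opProd (one1 y) alt1 (fun t => wgt z m (2 * (p + 1)) t) (2 * (p + 1)) :
      Fn n r →ₗ[ℝ] Fn n r) = opProd (one1 y) alt1 (fun t => wgt z m (2 * (p + 1)) t) (2 * p) *
      Act (lett (one1 y) (alt1 (2 * p))) *
      Avg (lazyLaw z (if 2 * p + 1 = 0 ∨ 2 * p + 1 = 2 * (p + 1) then m else 2 * m)) *
      Act (lett (one1 y) (alt1 (2 * p + 1))) *
      Avg (lazyLaw z (if 2 * p + 1 + 1 = 0 ∨ 2 * p + 1 + 1 = 2 * (p + 1) then m else 2 * m)) := rfl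
  have h3 : lett (one1 y) (alt1 (2 * p)) = (y : Perm (Fin n)) := by
    have h : (alt1 (2 * p)).2 = false := by simp [alt1]
    unfold lett
    rw [h]
    rfl
  have h4 : lett (one1 y) (alt1 (2 * p + 1)) = (y : Perm (Fin n))⁻¹ := by
    have h : (alt1 (2 * p + 1)).2 = true := by
      simp only [alt1, decide_eq_true_eq]
      omega
    unfold lett
    rw [h]
    rfl
  rw [h1, h0, h3, h4, if_neg (by omega), if_pos (by omega), hA, hA, pow_succ]
  conv_lhs => rw [show (Gop z y m : Fn n r →ₗ[ℝ] Fn n r) ^ p * Gop z y m =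
    Gop z y m ^ p * (Lz z ^ m * Act (y : Perm (Fin n)) * Lz z ^ (2 * m) *
      Act ((y : Perm (Fin n))⁻¹) * Lz z ^ m) from rfl]
  generalize (Gop z y m : Fn n r →ₗ[ℝ] Fn n r) ^ p = G
  simp only [mul_assoc]

end Pool.Agent.Helper19.AK
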